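import Pool.Agent.N675.M.Stm

/-! Closed form of the iterated derivatives, several parameters (port of `N362/A/Shape.lean`). -/

set_option autoImplicit false

namespace Pool.Agent.N441.M.Shape

open Finset Pool.Agent.N675 Pool.Agent.N675.M
open Pool.Agent.N781.A (ER cj)

/-- a function on `Option Z × κ`, from its values at `none` and its restriction to `Z × κ` -/
def ext {Z κ : Type} (h : κ → ℤ) (l : Z × κ → ℤ) : Option Z × κ → ℤ
  | (none, j) => h j
  | (some z, j) => l (z, j)

/-- averages over boxes indexed by `Option Z × κ` -/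
lemma ER_option {Z κ : Type} [Fintype Z] [DecidableEq Z] [Fintype κ] [DecidableEq κ] (H : κ → ℕ)
    (G : (Option Z × κ → ℤ) → ℝ) :
    ER (fun zj : Option Z × κ => H zj.2) G =
      ER H fun h => ER (fun zj : Z × κ => H zj.2) fun l => G (ext h l) := by
  unfold ER
  have e1 : ∑ y ∈ Box (fun zj : Option Z × κ => H zj.2), G y
      = ∑ h ∈ Box H, ∑ l ∈ Box (fun zj : Z × κ => H zj.2), G (ext h l) := by
    rw [← Finset.sum_product']
    symm
    refine Finset.sum_bij' (fun x _ => ext x.1 x.2)
      (fun y _ => (fun j => y (none, j), fun zj => y (some zj.1, zj.2))) ?_ ?_ ?_ ?_ ?_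
    · rintro ⟨h, l⟩ hx
      rw [Finset.mem_product, mem_Box, mem_Box] at hx
      rw [mem_Box]
      rintro ⟨s, j⟩
      cases s with
      | none => exact hx.1 j
      | some z => exact hx.2 (z, j)
    · intro y hy
      rw [mem_Box] at hy
      rw [Finset.mem_product, mem_Box, mem_Box]
      exact ⟨fun j => hy (none, j), fun zj => hy (some zj.1, zj.2)⟩
    · rintro ⟨h, l⟩ _
      rfl
    · intro y _
      funext ⟨s, j⟩
      cases s <;> rfl
    · rintro ⟨h, l⟩ _
      rfl
  rw [e1, Fintype.prod_prod_type, Fintype.prod_option, ← Finset.sum_div, div_div,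
    Fintype.prod_prod_type, mul_comm]

lemma cj_mul (b : Bool) (z w : ℂ) : cj b (z * w) = cj b z * cj b w := by
  cases b <;> simp [cj]

lemma cj_xor_true (b : Bool) (z : ℂ) : cj b ((starRingEnd ℂ) z) = cj (b ^^ true) z := by
  cases b <;> simp [cj]

/-- the linear forms of the next step -/
def nφ {Z I : Type} (φ : I → Z → ℤ) : I × Bool → Option (Option Z) → ℤ
  | (_, b), none => if b then 0 else 1
  | (_, b), some none => if b then 1 else 0
  | (i, _), some (some z) => φ i z

lemma cub_step {Z I κ : Type} [Fintype Z] [Fintype I] (φ : I → Z → ℤ) (σ : I → Bool)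
    (c : (κ → ℤ) → ℂ) (t : ℤ) (h h' : κ → ℤ) (l : Z × κ → ℤ) :
    cub (nφ φ) (fun x : I × Bool => σ x.1 ^^ x.2) c t (ext h (ext h' l))
      = cub φ σ (Dl (t • h) (t • h') c) t l := by
  funext d
  unfold cub
  rw [Fintype.prod_prod_type]
  refine Finset.prod_congr rfl fun i _ => ?_
  rw [Fintype.prod_bool]
  have e1 : comb (nφ φ) (i, true) (ext h (ext h' l)) = h' + comb φ i l := by
    funext j
    unfold comb LL
    rw [Fintype.sum_option, Fintype.sum_option]
    simp [nφ, ext]
  have e2 : comb (nφ φ) (i, false) (ext h (ext h' l)) = h + comb φ i l := by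
    funext j
    unfold comb LL
    rw [Fintype.sum_option, Fintype.sum_option]
    simp [nφ, ext]
  rw [e1, e2]
  unfold Dl
  rw [cj_mul, cj_xor_true, mul_comm]
  have a1 : d + t • (h + comb φ i l) = d + t • comb φ i l + t • h := by
    rw [smul_add]; abel
  have a2 : d + t • (h' + comb φ i l) = d + t • comb φ i l + t • h' := by
    rw [smul_add]; abel
  rw [a1, a2]
  simp

/-- **closed form of the iterated derivatives** -/
theorem shape : Pool.Agent.N675.M.S_SHAPE := by
  intro j
  induction j with
  | zero =>
    refine ⟨Empty, Unit, inferInstance, inferInstance, inferInstance, inferInstance,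
      inferInstance, fun _ e => e.elim, fun _ => false, ?_⟩
    intro κ _ _ Ξ t H c
    have e1 : ∀ l : Empty × κ → ℤ, cub (fun (_ : Unit) (e : Empty) => (e.elim : ℤ))
        (fun _ => false) c t l = c := by
      intro l
      funext d
      have e2 : comb (κ := κ) (fun (_ : Unit) (e : Empty) => (e.elim : ℤ)) () l = 0 := by
        funext j
        simp [comb, LL]
      simp [cub, cj, e2]
    simp only [e1]
    unfold ER
    simp [GX, Box]
  | succ j ih =>
    obtain ⟨Z, I, i1, i2, i3, i4, i5, φ, σ, h⟩ := ih
    refine ⟨Option (Option Z), I × Bool, inferInstance, inferInstance, inferInstance,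
      inferInstance, inferInstance, nφ φ, fun x => σ x.1 ^^ x.2, ?_⟩
    intro κ _ _ Ξ t H c
    rw [List.replicate_succ, ER_option]
    show (ER H fun a => ER H fun a' =>
      GX Ξ (List.replicate j (t, H)) (Dl ((t : ℤ) • a) ((t : ℤ) • a') c)) = _
    congr 1
    funext a
    rw [ER_option]
    congr 1
    funext a'
    rw [h]
    simp only [cub_step]

end Pool.Agent.N441.M.Shape
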